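import Pool.Agent.Y159.TQ.Stm
import Pool.Agent.Y159.PF.Rts
import Pool.Agent.TH869.EVF.Wf
import Pool.Agent.TH869.EVF.Quad
import Pool.Agent.TH869.EVF.Mom

set_option autoImplicit false

/-! Project TQ (helper159), part TQ-SUP (job 7462, helper542). -/

namespace Pool.Agent.Y542.TQ

open Polynomial Finset Filter Pool.Agent.TH869.EVF
open scoped Classical

/-- the Jacobi symbol of the value of a polynomial as a function on the residues -/
noncomputable def gz (f : ℤ[X]) (p : ℕ) [NeZero p] (x : ZMod p) : ℝ :=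
  (jacobiSym (((f.map (Int.castRingHom (ZMod p))).eval x).val : ℤ) p : ℝ)

theorem gz_eq (f : ℤ[X]) (p : ℕ) [NeZero p] (a : ℤ) :
    (jacobiSym (f.eval a) p : ℝ) = gz f p (a : ZMod p) := by
  unfold gz
  have h1 : (f.map (Int.castRingHom (ZMod p))).eval (a : ZMod p) = ((f.eval a : ℤ) : ZMod p) := by
    have := Polynomial.eval_intCast_map (Int.castRingHom (ZMod p)) f a
    rw [eq_intCast] at this
    exact this
  rw [h1, ZMod.val_intCast, ← jacobiSym.mod_left]

theorem sum_shift (f : ℤ[X]) (N : ℤ) (p : ℕ) (hp : p.Prime) :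
    ∑ n ∈ range p, js (f.comp (X + C N)) p n = ∑ n ∈ range p, (jacobiSym (f.eval (n : ℤ)) p : ℝ) := by
  have : NeZero p := ⟨hp.ne_zero⟩
  have h1 : ∀ n : ℕ, js (f.comp (X + C N)) p n = gz f p ((n : ZMod p) + (N : ZMod p)) := by
    intro n
    unfold js
    rw [eval_comp, eval_add, eval_X, eval_C, gz_eq]
    push_cast
    rfl
  have h2 : ∀ n : ℕ, (jacobiSym (f.eval (n : ℤ)) p : ℝ) = gz f p (n : ZMod p) := by
    intro n
    rw [gz_eq]
    push_cast
    rfl
  rw [Finset.sum_congr rfl fun n _ => h1 n, Finset.sum_congr rfl fun n _ => h2 n,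
    ← sum_zmod p (fun x => gz f p (x + (N : ZMod p))), ← sum_zmod p (gz f p)]
  exact Equiv.sum_comp (Equiv.addRight (N : ZMod p)) (gz f p)

theorem sup_const (f : ℤ[X]) (hf : ∀ (c : ℚ) (g : ℚ[X]), f.map (Int.castRingHom ℚ) ≠ C c * g ^ 2)
    (m : ℕ) (hm : 1 ≤ m) : ∃ (C : ℝ) (z0 : ℕ), 0 < C ∧ ∀ z : ℕ, 16 * m ≤ (Qz z).card → z0 ≤ z →
    ∀ (N : ℤ) (H : ℝ), 1 ≤ H → ∀ S : Finset ℤ, (∀ t ∈ S, (N : ℝ) ≤ t ∧ (t : ℝ) ≤ N + H) →
    ((S.filter (fun t => ((Qz z).card : ℝ) / 4 <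
      |∑ p ∈ Qz z, (jacobiSym (f.eval t) p : ℝ)|)).card : ℝ) ≤
      C * (H * (1 / ((Qz z).card : ℝ)) ^ m + ((z : ℝ) ^ 2) ^ m) := by
  obtain ⟨K, p0, hK0, hK⟩ := weil_f f hf
  set σ : ℝ := 1 / 4 with hσ
  have hσ0 : 0 < σ := by norm_num [hσ]
  set k : ℕ := 16 * m with hk
  have hk1 : 1 ≤ k := by omega
  have hkr : (0 : ℝ) < k := by exact_mod_cast hk1
  set c1 : ℝ := 8 * (1 + 4 * K ^ 2) * k / σ ^ 2 with hc1
  have hc10 : 0 < c1 := by rw [hc1]; positivity
  refine ⟨2 ^ k * (2 * c1 ^ m + ((4 / σ) ^ 2) ^ m), 2 * p0 + 2, by positivity, ?_⟩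
  intro z hz1 hz2 N H hH S hS
  set P := Qz z with hP
  have hz0 : (0 : ℝ) < z := by
    have : 0 < z := by omega
    exact_mod_cast this
  have hP0 : (0 : ℝ) < P.card := by
    have : 0 < P.card := by omega
    exact_mod_cast this
  have hmom := moment_bad (js (f.comp (X + C N))) K ((z : ℝ) / 2) z hK0 (by positivity) (by omega) P
    (fun p hp => mem_Qz hp) (fun p _ => js_per _ p) (fun p n => js_abs _ p n) (by
      intro p hp
      have hpp := mem_Qz hp
      rw [sum_shift f N p hpp.1]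
      refine hK p hpp.1 ?_
      have h6 : (z : ℝ) ≤ 2 * p := by linarith [hpp.2.1]
      have h7 : z ≤ 2 * p := by exact_mod_cast h6
      omega) (⌊H⌋₊ + 1) m k hk1 hz1 σ hσ0 (by
      rw [hσ, hk]; push_cast; linarith) (by
      have := card_Qz z
      linarith)
  set E := S.filter (fun t => (P.card : ℝ) / 4 <
      |∑ p ∈ P, (jacobiSym (f.eval t) p : ℝ)|) with hE
  have hinj : (E.card : ℝ) ≤
      (((range (⌊H⌋₊ + 1)).filter (fun n => σ * P.card < |∑ p ∈ P, js (f.comp (X + C N)) p n|)).card :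
        ℝ) := by
    have h1 : E.card ≤ ((range (⌊H⌋₊ + 1)).filter
        (fun n => σ * P.card < |∑ p ∈ P, js (f.comp (X + C N)) p n|)).card := by
      refine Finset.card_le_card_of_injOn (fun t => (t - N).toNat) ?_ ?_
      · intro t ht
        rw [Finset.mem_coe, hE, mem_filter] at ht
        obtain ⟨htS, ht⟩ := ht
        obtain ⟨g1, g2⟩ := hS t htS
        have g1' : N ≤ t := by exact_mod_cast g1
        have hj : ((t - N).toNat : ℤ) = t - N := Int.toNat_of_nonneg (by omega)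
        have hjr : (((t - N).toNat : ℕ) : ℝ) = t - N := by
          have : (((t - N).toNat : ℤ) : ℝ) = ((t - N : ℤ) : ℝ) := by rw [hj]
          push_cast at this
          exact this
        have hlt : (t - N).toNat ≤ ⌊H⌋₊ := Nat.le_floor (by rw [hjr]; linarith)
        rw [Finset.mem_coe, mem_filter, mem_range]
        refine ⟨Nat.lt_succ_of_le hlt, ?_⟩
        have h2 : ∑ p ∈ P, js (f.comp (X + C N)) p (t - N).toNat =
            ∑ p ∈ P, (jacobiSym (f.eval t) p : ℝ) := by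
          refine Finset.sum_congr rfl fun p _ => ?_
          unfold js
          rw [eval_comp, eval_add, eval_X, eval_C, hj, sub_add_cancel]
        rw [h2, hσ]
        linarith
      · intro t ht t' ht' htt
        rw [Finset.mem_coe, hE, mem_filter] at ht ht'
        have h1 : N ≤ t := by exact_mod_cast (hS t ht.1).1
        have h2 : N ≤ t' := by exact_mod_cast (hS t' ht'.1).1
        simp only at htt
        omega
    exact_mod_cast h1
  refine hinj.trans (hmom.trans ?_)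
  have e1 : 8 * (1 + 4 * K ^ 2) * k / (σ ^ 2 * P.card) = c1 * (1 / (P.card : ℝ)) := by
    rw [hc1]; field_simp
  have e2 : (4 * (z : ℝ) / σ) ^ 2 = (4 / σ) ^ 2 * (z : ℝ) ^ 2 := by ring
  rw [e1, e2, mul_pow, mul_pow]
  have h1 : ((⌊H⌋₊ + 1 : ℕ) : ℝ) ≤ 2 * H := by
    have := Nat.floor_le (show 0 ≤ H by linarith)
    push_cast
    linarith
  set A : ℝ := (1 / (P.card : ℝ)) ^ m with hA
  set B : ℝ := ((z : ℝ) ^ 2) ^ m with hB
  have hA0 : 0 ≤ A := by positivity
  have hB0 : 0 ≤ B := by positivity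
  set a1 : ℝ := c1 ^ m with ha1
  set b1 : ℝ := ((4 / σ) ^ 2) ^ m with hb1
  have ha10 : 0 ≤ a1 := by positivity
  have hb10 : 0 ≤ b1 := by positivity
  have hH0 : 0 ≤ H := by linarith
  calc 2 ^ k * (((⌊H⌋₊ + 1 : ℕ) : ℝ) * (a1 * A) + b1 * B)
      ≤ 2 ^ k * ((2 * H) * (a1 * A) + b1 * B) := by gcongr
    _ ≤ 2 ^ k * ((2 * a1 + b1) * (H * A + B)) := by
        have h2 : 0 ≤ b1 * (H * A) := by positivity
        have h3 : 0 ≤ 2 * a1 * B := by positivity
        have h4 : (2 * a1 + b1) * (H * A + B) = (2 * H) * (a1 * A) + b1 * B + b1 * (H * A) +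
          2 * a1 * B := by ring
        apply mul_le_mul_of_nonneg_left _ (by positivity)
        rw [h4]
        linarith
    _ = _ := by ring

theorem sup : Pool.Agent.Y159.TQ.TaskSup := by
  intro f hf m hm δ hδ hδ1
  obtain ⟨C, z0, hC0, hC⟩ := sup_const f hf m hm
  obtain ⟨Y1, hY11, hY1⟩ := Pool.Agent.Y159.PF.exists_block δ hδ hδ1
  have h1 : ∀ᶠ x : ℝ in atTop, ((16 * m + z0 : ℕ) : ℝ) ≤ x ^ (1 - δ) :=
    (tendsto_rpow_atTop (by linarith)).eventually_ge_atTop _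
  obtain ⟨Y2, hY2⟩ := eventually_atTop.mp h1
  refine ⟨C, max Y1 Y2, hC0, hY11.trans (le_max_left _ _), ?_⟩
  intro y hy
  have hyY1 : Y1 ≤ y := (le_max_left _ _).trans hy
  have hy0 : 0 < y := by linarith
  obtain ⟨z, hz1, hz2⟩ := hY1 y hyY1
  have h2 := hY2 y ((le_max_right _ _).trans hy)
  refine ⟨z, hz1, hz2, ?_⟩
  intro N H hH S hS
  have h3 : 16 * m + z0 ≤ (Qz z).card := by exact_mod_cast h2.trans hz2
  have h4 : (Qz z).card ≤ z := by
    have := card_Qz z
    have h5 : ((Qz z).card : ℝ) ≤ z := by linarith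
    exact_mod_cast h5
  refine (hC z (by omega) (by omega) N H hH S hS).trans ?_
  have hyp : 0 < y ^ (1 - δ) := Real.rpow_pos_of_pos hy0 _
  have h5 : (1 / ((Qz z).card : ℝ)) ^ m ≤ y ^ (-((1 - δ) * m)) := by
    have e : y ^ (-((1 - δ) * m)) = (1 / y ^ (1 - δ)) ^ m := by
      rw [Real.rpow_neg hy0.le, Real.rpow_mul hy0.le, Real.rpow_natCast, one_div, inv_pow]
    rw [e]
    gcongr
  have h6 : ((z : ℝ) ^ 2) ^ m ≤ y ^ (2 * m) := by
    rw [pow_mul]
    gcongr
  have hH0 : 0 ≤ H := by linarith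
  gcongr

end Pool.Agent.Y542.TQ
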